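import Pool.Agent.U180.DP.Stm2

set_option autoImplicit false

/-!
Package VOID2 of project DP, second part (helper689): the probability of an empty window.
-/

open MeasureTheory ProbabilityTheory Filter Topology

namespace Pool.Agent.U689.DP

open Pool.Agent.U180.DP

theorem exp_low {q : ℝ} (h0 : 0 ≤ q) (h1 : q ≤ 1 / 2) : Real.exp (-(q + q ^ 2)) ≤ 1 - q := by
  have hx : 0 ≤ q + q ^ 2 := by positivity
  have h2 := Real.quadratic_le_exp_of_nonneg hx
  have h3 : 1 ≤ (1 - q) * (1 + (q + q ^ 2) + (q + q ^ 2) ^ 2 / 2) := by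
    have h4 : 0 ≤ 1 - q - q ^ 2 - q ^ 3 := by
      have h5 : q ^ 2 ≤ (1 / 2) ^ 2 := pow_le_pow_left₀ h0 h1 2
      have h6 : q ^ 3 ≤ (1 / 2) ^ 3 := pow_le_pow_left₀ h0 h1 3
      norm_num at h5 h6 ⊢
      linarith
    have h7 : (1 - q) * (1 + (q + q ^ 2) + (q + q ^ 2) ^ 2 / 2) =
        1 + q ^ 2 / 2 * (1 - q - q ^ 2 - q ^ 3) := by ring
    rw [h7]
    have : 0 ≤ q ^ 2 / 2 * (1 - q - q ^ 2 - q ^ 3) := mul_nonneg (by positivity) h4
    linarith
  have h5 : 1 ≤ (1 - q) * Real.exp (q + q ^ 2) :=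
    h3.trans (mul_le_mul_of_nonneg_left h2 (by linarith))
  rw [Real.exp_neg, inv_le_iff_one_le_mul₀ (Real.exp_pos _)]
  exact h5

theorem exp_up {t : ℝ} (h0 : 0 ≤ t) (h1 : t ≤ 1 / 2) : Real.exp t ≤ 1 + 2 * t := by
  have h2 := Real.one_sub_le_exp_neg t
  have h3 : Real.exp t * Real.exp (-t) = 1 := by rw [← Real.exp_add]; simp
  have h4 : Real.exp t * (1 - t) ≤ 1 :=
    (mul_le_mul_of_nonneg_left h2 (Real.exp_pos t).le).trans h3.le
  have h5 : 1 ≤ (1 + 2 * t) * (1 - t) := by nlinarith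
  have h6 : Real.exp t * (1 - t) ≤ (1 + 2 * t) * (1 - t) := h4.trans h5
  exact le_of_mul_le_mul_right h6 (by linarith)

theorem t_VOID2 (h1 : S_PREC) (h2 : S_LAW) : S_VOID2 := by
  intro A ε hA hε
  obtain ⟨e, he0, heh, he1, he2⟩ : ∃ e : ℝ, 0 < e ∧ e ≤ 1 / 2 ∧ Real.exp e ≤ 1 + ε ∧
      1 - ε ≤ Real.exp (-(2 * e)) := by
    have g1 := min_le_left ε 1
    have g2 := min_le_right ε 1
    have g3 : 0 < min ε 1 := lt_min hε one_pos
    refine ⟨min ε 1 / 2, by positivity, by linarith, ?_, ?_⟩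
    · have := exp_up (t := min ε 1 / 2) (by positivity) (by linarith)
      linarith
    · have := Real.one_sub_le_exp_neg (2 * (min ε 1 / 2))
      linarith
  obtain ⟨X₁, hX₁⟩ := h1 A (e / 2) hA (by positivity)
  refine ⟨max (max X₁ (Real.exp 2)) (Real.exp (3 / e)), ?_⟩
  intro Ω _ P U hU x y hx hy0 hy
  have hx1 : X₁ ≤ x := (le_max_left _ _).trans ((le_max_left _ _).trans hx)
  have hx2 : Real.exp 2 ≤ x := (le_max_right _ _).trans ((le_max_left _ _).trans hx)
  have hx3 : Real.exp (3 / e) ≤ x := (le_max_right _ _).trans hx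
  have hx0 : 0 < x := (Real.exp_pos 2).trans_le hx2
  obtain ⟨l, hl⟩ : ∃ l : ℝ, l = Real.log x := ⟨_, rfl⟩
  have hl2 : 2 ≤ l := by rw [hl]; exact (Real.le_log_iff_exp_le hx0).2 hx2
  have hl3 : 3 / e ≤ l := by rw [hl]; exact (Real.le_log_iff_exp_le hx0).2 hx3
  have hl0 : 0 < l := by linarith
  rw [← hl] at hy ⊢
  have hy3 : y ≤ l ^ 3 := by
    refine hy.trans ?_
    have : 2 * l ^ 2 ≤ l * l ^ 2 := mul_le_mul_of_nonneg_right hl2 (by positivity)
    calc 2 * l ^ 2 ≤ l * l ^ 2 := this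
      _ = l ^ 3 := by ring
  obtain ⟨g1, g2⟩ := hX₁ x y hx1 hy0 (by rw [← hl]; exact hy3)
  rw [← hl] at g1 g2
  have hyl : y / l ^ 2 ≤ 2 := by
    rw [div_le_iff₀ (by positivity)]
    exact hy
  have g3 : |∑ p ∈ prm (x + y), prb A x y p - y / l| ≤ e := by
    refine g1.trans ?_
    have := mul_le_mul_of_nonneg_left hyl (show (0 : ℝ) ≤ e / 2 by positivity)
    linarith
  rw [abs_le] at g3
  have hq1 : 1 / l ^ 4 ≤ 1 / 2 := by
    have h4 : (2 : ℝ) ≤ l ^ 4 := by
      have : (2 : ℝ) ^ 4 ≤ l ^ 4 := pow_le_pow_left₀ (by norm_num) hl2 4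
      norm_num at this
      linarith
    exact one_div_le_one_div_of_le (by norm_num) h4
  -- the sum of the squares
  have hyl1 : y / l ≤ 2 * l := by
    rw [div_le_iff₀ hl0]
    calc y ≤ 2 * l ^ 2 := hy
      _ = 2 * l * l := by ring
  have g4 : ∑ p ∈ prm (x + y), prb A x y p ^ 2 ≤ e := by
    calc ∑ p ∈ prm (x + y), prb A x y p ^ 2
        ≤ ∑ p ∈ prm (x + y), 1 / l ^ 4 * prb A x y p := by
          refine Finset.sum_le_sum fun p hp => ?_
          rw [sq]
          exact mul_le_mul_of_nonneg_right (g2 p hp).2 (g2 p hp).1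
      _ = 1 / l ^ 4 * ∑ p ∈ prm (x + y), prb A x y p := by rw [Finset.mul_sum]
      _ ≤ 1 / l ^ 4 * (3 * l) := by
          apply mul_le_mul_of_nonneg_left _ (by positivity)
          linarith
      _ = 3 / l ^ 3 := by field_simp
      _ ≤ 3 / l := by
          apply div_le_div_of_nonneg_left (by norm_num) hl0
          calc l = l ^ 1 := (pow_one l).symm
            _ ≤ l ^ 3 := pow_le_pow_right₀ (by linarith) (by norm_num)
      _ ≤ e := by
          rw [div_le_iff₀ hl0]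
          rw [div_le_iff₀ he0] at hl3
          linarith
  obtain ⟨-, -, -, h3, -⟩ := h2 Ω P A U hU (by linarith)
  rw [h3 x y hx0.le hy0.le]
  have e1 : Real.exp (-(y / l) - 2 * e) ≤ ∏ p ∈ prm (x + y), (1 - prb A x y p) := by
    calc Real.exp (-(y / l) - 2 * e)
        ≤ Real.exp (∑ p ∈ prm (x + y), -(prb A x y p + prb A x y p ^ 2)) := by
          apply Real.exp_le_exp.2
          rw [Finset.sum_neg_distrib, Finset.sum_add_distrib]
          linarith [g3.2]
      _ = ∏ p ∈ prm (x + y), Real.exp (-(prb A x y p + prb A x y p ^ 2)) := Real.exp_sum _ _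
      _ ≤ _ := Finset.prod_le_prod (fun _ _ => (Real.exp_pos _).le) fun p hp =>
          exp_low (g2 p hp).1 ((g2 p hp).2.trans hq1)
  have e2 : ∏ p ∈ prm (x + y), (1 - prb A x y p) ≤ Real.exp (-(y / l) + e) := by
    calc ∏ p ∈ prm (x + y), (1 - prb A x y p)
        ≤ ∏ p ∈ prm (x + y), Real.exp (-(prb A x y p)) :=
          Finset.prod_le_prod (fun p hp => by linarith [(g2 p hp).2, hq1])
            fun p _ => Real.one_sub_le_exp_neg _
      _ = Real.exp (∑ p ∈ prm (x + y), -(prb A x y p)) := (Real.exp_sum _ _).symm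
      _ ≤ _ := by
          apply Real.exp_le_exp.2
          rw [Finset.sum_neg_distrib]
          linarith [g3.1]
  constructor
  · refine le_trans ?_ e1
    rw [show -(y / l) - 2 * e = -(2 * e) + -(y / l) by ring, Real.exp_add]
    exact mul_le_mul_of_nonneg_right he2 (Real.exp_pos _).le
  · refine e2.trans ?_
    rw [show -(y / l) + e = e + -(y / l) by ring, Real.exp_add]
    exact mul_le_mul_of_nonneg_right he1 (Real.exp_pos _).le

end Pool.Agent.U689.DP
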